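import Pool.Agent.W973.SRR.Defs

/-!
SRR-OCC: the cyclic order of the occurrences of a variable.
-/

set_option autoImplicit false

namespace Pool.Agent.W885.SRR

open Pool.Agent.W973.SRR Pool.Agent.NPC

section lists

/-- the next element of a list, cyclically -/
def nx (L : List ℕ) (i : ℕ) : ℕ := L.getD ((L.idxOf i + 1) % L.length) 0

/-- the previous element of a list, cyclically -/
def pv (L : List ℕ) (i : ℕ) : ℕ := L.getD ((L.idxOf i + (L.length - 1)) % L.length) 0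

lemma getD_mod (L : List ℕ) (h : 0 < L.length) (k : ℕ) :
    L.getD (k % L.length) 0 = L[k % L.length]'(Nat.mod_lt _ h) := by
  rw [List.getD_eq_getElem]

lemma nx_mem {L : List ℕ} {i : ℕ} (hi : i ∈ L) : nx L i ∈ L := by
  have h : 0 < L.length := List.length_pos_of_mem hi
  rw [nx, getD_mod L h]
  exact List.getElem_mem _

lemma pv_mem {L : List ℕ} {i : ℕ} (hi : i ∈ L) : pv L i ∈ L := by
  have h : 0 < L.length := List.length_pos_of_mem hi
  rw [pv, getD_mod L h]
  exact List.getElem_mem _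

lemma idx_nx {L : List ℕ} (hL : L.Nodup) {i : ℕ} (hi : i ∈ L) :
    L.idxOf (nx L i) = (L.idxOf i + 1) % L.length := by
  have h : 0 < L.length := List.length_pos_of_mem hi
  rw [nx, getD_mod L h]
  exact hL.idxOf_getElem _ _

lemma idx_pv {L : List ℕ} (hL : L.Nodup) {i : ℕ} (hi : i ∈ L) :
    L.idxOf (pv L i) = (L.idxOf i + (L.length - 1)) % L.length := by
  have h : 0 < L.length := List.length_pos_of_mem hi
  rw [pv, getD_mod L h]
  exact hL.idxOf_getElem _ _

lemma pv_nx {L : List ℕ} (hL : L.Nodup) {i : ℕ} (hi : i ∈ L) : pv L (nx L i) = i := by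
  have h : 0 < L.length := List.length_pos_of_mem hi
  have hk : L.idxOf i < L.length := List.idxOf_lt_length_iff.2 hi
  have h1 : ((L.idxOf i + 1) % L.length + (L.length - 1)) % L.length = L.idxOf i := by
    rw [Nat.mod_add_mod]
    have h2 : L.idxOf i + 1 + (L.length - 1) = L.idxOf i + L.length := by omega
    rw [h2, Nat.add_mod_right, Nat.mod_eq_of_lt hk]
  rw [pv, idx_nx hL hi, h1, List.getD_eq_getElem _ _ hk]
  exact List.getElem_idxOf hk

lemma nx_pv {L : List ℕ} (hL : L.Nodup) {i : ℕ} (hi : i ∈ L) : nx L (pv L i) = i := by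
  have h : 0 < L.length := List.length_pos_of_mem hi
  have hk : L.idxOf i < L.length := List.idxOf_lt_length_iff.2 hi
  have h1 : ((L.idxOf i + (L.length - 1)) % L.length + 1) % L.length = L.idxOf i := by
    rw [Nat.mod_add_mod]
    have h2 : L.idxOf i + (L.length - 1) + 1 = L.idxOf i + L.length := by omega
    rw [h2, Nat.add_mod_right, Nat.mod_eq_of_lt hk]
  rw [nx, idx_pv hL hi, h1, List.getD_eq_getElem _ _ hk]
  exact List.getElem_idxOf hk

lemma cyc {L : List ℕ} (hL : L.Nodup) {Q : ℕ → Prop} (hQ : ∀ i ∈ L, (Q i ↔ Q (nx L i))) :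
    ∀ k (hk : k < L.length), (Q (L[0]'(by omega)) ↔ Q L[k]) := by
  intro k
  induction k with
  | zero => intro _; rfl
  | succ k ih =>
    intro hk
    have h1 : k < L.length := by omega
    rw [ih h1, hQ _ (List.getElem_mem h1)]
    have h2 : nx L L[k] = L[k + 1] := by
      have h3 : (k + 1) % L.length = k + 1 := Nat.mod_eq_of_lt hk
      rw [nx, hL.idxOf_getElem _ _, h3, List.getD_eq_getElem _ _ hk]
    rw [h2]

lemma cyc_all {L : List ℕ} (hL : L.Nodup) {Q : ℕ → Prop} (hQ : ∀ i ∈ L, (Q i ↔ Q (nx L i)))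
    {i j : ℕ} (hi : i ∈ L) (hj : j ∈ L) : Q i ↔ Q j := by
  obtain ⟨a, ha, rfl⟩ := List.getElem_of_mem hi
  obtain ⟨b, hb, rfl⟩ := List.getElem_of_mem hj
  exact (cyc hL hQ a ha).symm.trans (cyc hL hQ b hb)

end lists

lemma occs_nodup (ψ : CNF) (x : ℕ) : (occs ψ x).Nodup := List.nodup_range.filter _

lemma mem_occs {ψ : CNF} {x i : ℕ} : i ∈ occs ψ x ↔ i < NO ψ ∧ vv ψ i = x := by
  simp [occs]

theorem occ : S_OCC := by
  intro ψ
  refine ⟨?_, ?_⟩
  · intro i hi
    have hm : i ∈ occs ψ (vv ψ i) := mem_occs.2 ⟨hi, rfl⟩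
    have e1 : nxt ψ i = nx (occs ψ (vv ψ i)) i := rfl
    have e2 : prv ψ i = pv (occs ψ (vv ψ i)) i := rfl
    have h1 := mem_occs.1 (nx_mem hm)
    have h2 := mem_occs.1 (pv_mem hm)
    rw [← e1] at h1
    rw [← e2] at h2
    refine ⟨h1.1, h2.1, h1.2, h2.2, ?_, ?_⟩
    · have e3 : prv ψ (nxt ψ i) = pv (occs ψ (vv ψ (nxt ψ i))) (nxt ψ i) := rfl
      rw [e3, h1.2, e1]
      exact pv_nx (occs_nodup ψ _) hm
    · have e3 : nxt ψ (prv ψ i) = nx (occs ψ (vv ψ (prv ψ i))) (prv ψ i) := rfl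
      rw [e3, h2.2, e2]
      exact nx_pv (occs_nodup ψ _) hm
  · intro Q hQ i hi j hj hij
    refine cyc_all (occs_nodup ψ (vv ψ i)) ?_ (mem_occs.2 ⟨hi, rfl⟩) (mem_occs.2 ⟨hj, hij.symm⟩)
    intro t ht
    have ht1 := mem_occs.1 ht
    have e1 : nxt ψ t = nx (occs ψ (vv ψ t)) t := rfl
    rw [hQ t ht1.1, e1, ht1.2]

end Pool.Agent.W885.SRR
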